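import Pool.Agent.Helper93.MF.Lat

set_option autoImplicit false

namespace Pool.Agent.Helper53.MF

open Submodule Module Set

noncomputable section

variable {E : Type*} [NormedAddCommGroup E] [InnerProductSpace ℝ E]
variable {F : Type*} [NormedAddCommGroup F] [InnerProductSpace ℝ F]
variable {N : ℕ}

theorem covol_inv_pos {L : (Fin N → ℝ) →ₗ[ℝ] E} (hL : Function.Injective L)
    (W : Submodule ℚ (Fin N → ℚ)) : 0 < (covol L W)⁻¹ := inv_pos.2 (covol_pos hL W)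

theorem alpha_nonneg {L : (Fin N → ℝ) →ₗ[ℝ] E} (hL : Function.Injective L)
    (Tar : Set (Fin N → ℤ)) (r : ℕ) : 0 ≤ alpha L Tar r := by
  apply Real.sSup_nonneg
  rintro a ⟨W, -, -, rfl⟩
  exact (covol_inv_pos hL W).le

theorem fM_nonneg {L : (Fin N → ℝ) →ₗ[ℝ] E} (hL : Function.Injective L)
    (Tar : Set (Fin N → ℤ)) {ε : ℝ} (hε : 0 < ε) (j : ℕ) : 0 ≤ fM L Tar ε j := by
  apply Finset.sum_nonneg
  intro r _
  exact mul_nonneg (pow_nonneg (inv_nonneg.2 hε.le) _) (Real.rpow_nonneg (alpha_nonneg hL Tar r) _)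

theorem R_pos {L : (Fin N → ℝ) →ₗ[ℝ] E} (hL : Function.Injective L)
    {R : ℝ} (hR : ∀ W, (covol L W)⁻¹ ≤ R) : 0 < R :=
  (covol_inv_pos hL ⊥).trans_le (hR ⊥)

theorem alpha_le {L : (Fin N → ℝ) →ₗ[ℝ] E} (hL : Function.Injective L)
    (Tar : Set (Fin N → ℤ)) {R : ℝ} (hR : ∀ W, (covol L W)⁻¹ ≤ R) (r : ℕ) :
    alpha L Tar r ≤ R := by
  apply Real.sSup_le
  · rintro a ⟨W, -, -, rfl⟩
    exact hR W
  · exact (R_pos hL hR).le

theorem le_alpha {L : (Fin N → ℝ) →ₗ[ℝ] E}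
    {Tar : Set (Fin N → ℤ)} {R : ℝ} (hR : ∀ W, (covol L W)⁻¹ ≤ R) {r : ℕ}
    {W : Submodule ℚ (Fin N → ℚ)} (hW : finrank ℚ W = r) {v : Fin N → ℤ} (hv : v ∈ Tar)
    (hvW : toQ v ∈ W) : (covol L W)⁻¹ ≤ alpha L Tar r := by
  apply le_csSup
  · refine ⟨R, ?_⟩
    rintro a ⟨W, -, -, rfl⟩
    exact hR W
  · exact ⟨W, hW, ⟨v, hv, hvW⟩, rfl⟩

theorem inv_covol_mono {L : (Fin N → ℝ) →ₗ[ℝ] E} {L' : (Fin N → ℝ) →ₗ[ℝ] F}
    (hL : Function.Injective L) (hL' : Function.Injective L') {K : ℝ} (hK : 1 ≤ K)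
    (h : ∀ z, ‖L z‖ ≤ K * ‖L' z‖) (W : Submodule ℚ (Fin N → ℚ)) :
    (covol L' W)⁻¹ ≤ K ^ N * (covol L W)⁻¹ := by
  have h1 := covol_mono hL hL' hK h W
  have h2 := covol_pos hL W
  have h3 := covol_pos hL' W
  rw [inv_eq_one_div, ← div_eq_mul_inv, div_le_div_iff₀ h3 h2]
  linarith

/-- trivial comparison -/
theorem alpha_mono {L : (Fin N → ℝ) →ₗ[ℝ] E} {L' : (Fin N → ℝ) →ₗ[ℝ] F}
    (hL : Function.Injective L) (hL' : Function.Injective L') {K : ℝ} (hK : 1 ≤ K)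
    (h : ∀ z, ‖L z‖ ≤ K * ‖L' z‖) {Tar Tar' : Set (Fin N → ℤ)} (hT : Tar' ⊆ Tar)
    {R : ℝ} (hR : ∀ W, (covol L W)⁻¹ ≤ R) (r : ℕ) :
    alpha L' Tar' r ≤ K ^ N * alpha L Tar r := by
  have hK0 : (0:ℝ) ≤ K ^ N := pow_nonneg (zero_le_one.trans hK) _
  apply Real.sSup_le
  · rintro a ⟨W, hW, ⟨v, hv, hvW⟩, rfl⟩
    exact (inv_covol_mono hL hL' hK h W).trans
      (mul_le_mul_of_nonneg_left (le_alpha hR hW (hT hv) hvW) hK0)
  · exact mul_nonneg hK0 (alpha_nonneg hL Tar r)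

theorem one_div_nat_nonneg (j : ℕ) : (0:ℝ) ≤ 1 / (j:ℝ) := by positivity

theorem one_div_nat_le_one {j : ℕ} (hj : 1 ≤ j) : 1 / (j:ℝ) ≤ 1 := by
  have : (1:ℝ) ≤ j := by exact_mod_cast hj
  rw [div_le_one (by linarith)]
  exact this

theorem rpow_le_of_one_le {x : ℝ} (hx : 1 ≤ x) {j : ℕ} (hj : 1 ≤ j) : x ^ (1 / (j:ℝ)) ≤ x := by
  calc x ^ (1 / (j:ℝ)) ≤ x ^ (1:ℝ) := Real.rpow_le_rpow_of_exponent_le hx (one_div_nat_le_one hj)
    _ = x := Real.rpow_one x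

theorem fM_mono {L : (Fin N → ℝ) →ₗ[ℝ] E} {L' : (Fin N → ℝ) →ₗ[ℝ] F}
    (hL : Function.Injective L) (hL' : Function.Injective L') {K : ℝ} (hK : 1 ≤ K)
    (h : ∀ z, ‖L z‖ ≤ K * ‖L' z‖) {Tar Tar' : Set (Fin N → ℤ)} (hT : Tar' ⊆ Tar)
    {R : ℝ} (hR : ∀ W, (covol L W)⁻¹ ≤ R) {ε : ℝ} (hε : 0 < ε) {j : ℕ} (hj : 1 ≤ j) :
    fM L' Tar' ε j ≤ K ^ N * fM L Tar ε j := by
  have hKN : (1:ℝ) ≤ K ^ N := one_le_pow₀ hK
  unfold fM
  rw [Finset.mul_sum]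
  apply Finset.sum_le_sum
  intro r _
  have h1 : alpha L' Tar' r ^ (1 / (j:ℝ)) ≤ K ^ N * alpha L Tar r ^ (1 / (j:ℝ)) := by
    calc alpha L' Tar' r ^ (1 / (j:ℝ)) ≤ (K ^ N * alpha L Tar r) ^ (1 / (j:ℝ)) :=
          Real.rpow_le_rpow (alpha_nonneg hL' Tar' r) (alpha_mono hL hL' hK h hT hR r)
            (one_div_nat_nonneg j)
      _ = (K ^ N) ^ (1 / (j:ℝ)) * alpha L Tar r ^ (1 / (j:ℝ)) :=
          Real.mul_rpow (by linarith) (alpha_nonneg hL Tar r)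
      _ ≤ K ^ N * alpha L Tar r ^ (1 / (j:ℝ)) :=
          mul_le_mul_of_nonneg_right (rpow_le_of_one_le hKN hj)
            (Real.rpow_nonneg (alpha_nonneg hL Tar r) _)
  have h2 : (0:ℝ) ≤ (ε⁻¹) ^ (r ^ 2) := pow_nonneg (inv_nonneg.2 hε.le) _
  calc (ε⁻¹) ^ (r ^ 2) * alpha L' Tar' r ^ (1 / (j:ℝ))
      ≤ (ε⁻¹) ^ (r ^ 2) * (K ^ N * alpha L Tar r ^ (1 / (j:ℝ))) :=
        mul_le_mul_of_nonneg_left h1 h2
    _ = K ^ N * ((ε⁻¹) ^ (r ^ 2) * alpha L Tar r ^ (1 / (j:ℝ))) := by ring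

theorem toQ_ne_zero {v : Fin N → ℤ} (hv : v ≠ 0) : toQ v ≠ 0 := by
  intro h
  apply hv
  funext i
  have := congrFun h i
  simpa [toQ] using this

theorem term_le_fM {L : (Fin N → ℝ) →ₗ[ℝ] E} (hL : Function.Injective L)
    (Tar : Set (Fin N → ℤ)) {ε : ℝ} (hε : 0 < ε) (j : ℕ) {r : ℕ} (hr : 1 ≤ r) (hrN : r ≤ N) :
    (ε⁻¹) ^ (r ^ 2) * (alpha L Tar r) ^ (1 / (j : ℝ)) ≤ fM L Tar ε j := by
  apply Finset.single_le_sum (f := fun r => (ε⁻¹) ^ (r ^ 2) * (alpha L Tar r) ^ (1 / (j : ℝ)))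
  · intro r _
    exact mul_nonneg (pow_nonneg (inv_nonneg.2 hε.le) _)
      (Real.rpow_nonneg (alpha_nonneg hL Tar r) _)
  · exact Finset.mem_Icc.2 ⟨hr, hrN⟩

/-- a target gives a lower bound -/
theorem le_fM {L : (Fin N → ℝ) →ₗ[ℝ] E}
    (hL : Function.Injective L) {K : ℝ} (hK : 1 ≤ K) {Tar : Set (Fin N → ℤ)}
    {v : Fin N → ℤ} (hv : v ∈ Tar) (hv0 : v ≠ 0) (hvK : ‖L (toR v)‖ ≤ K)
    {R : ℝ} (hR : ∀ W, (covol L W)⁻¹ ≤ R) {ε : ℝ} (hε : 0 < ε) (hε1 : ε ≤ 1)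
    {j : ℕ} (hj : 1 ≤ j) :
    K⁻¹ ≤ fM L Tar ε j := by
  have hN : 1 ≤ N := by
    rcases Nat.eq_zero_or_pos N with h | h
    · subst h
      exact absurd (Subsingleton.elim v 0) hv0
    · exact h
  have hK0 : 0 < K := zero_lt_one.trans_le hK
  have h1 : covol L (⊥ ⊔ span ℚ {toQ v}) ≤ covol L ⊥ * ‖L (toR v)‖ :=
    covol_adjoin hL ⊥ (by simpa using toQ_ne_zero hv0)
  rw [bot_sup_eq, covol_bot hL, one_mul] at h1
  have h2 : finrank ℚ (span ℚ {toQ v}) = 1 := finrank_span_singleton (toQ_ne_zero hv0)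
  have h3 : K⁻¹ ≤ alpha L Tar 1 := by
    refine le_trans ?_ (le_alpha hR h2 hv (mem_span_singleton_self _))
    exact inv_anti₀ (covol_pos hL _) (h1.trans hvK)
  have h4 : K⁻¹ ≤ alpha L Tar 1 ^ (1 / (j:ℝ)) := by
    calc K⁻¹ = (K⁻¹) ^ (1:ℝ) := (Real.rpow_one _).symm
      _ ≤ (K⁻¹) ^ (1 / (j:ℝ)) := Real.rpow_le_rpow_of_exponent_ge (inv_pos.2 hK0)
          (inv_le_one_of_one_le₀ hK) (one_div_nat_le_one hj)
      _ ≤ _ := Real.rpow_le_rpow (inv_nonneg.2 hK0.le) h3 (one_div_nat_nonneg j)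
  refine le_trans ?_ (term_le_fM hL Tar hε j le_rfl hN)
  have h5 : (1:ℝ) ≤ (ε⁻¹) ^ (1 ^ 2) := one_le_pow₀ ((one_le_inv₀ hε).2 hε1)
  calc K⁻¹ = 1 * K⁻¹ := (one_mul _).symm
    _ ≤ _ := mul_le_mul h5 h4 (inv_nonneg.2 hK0.le) (zero_le_one.trans h5)

theorem fM_le {L : (Fin N → ℝ) →ₗ[ℝ] E} (hL : Function.Injective L)
    (Tar : Set (Fin N → ℤ)) {R : ℝ} (hR : ∀ W, (covol L W)⁻¹ ≤ R) {ε : ℝ} (hε : 0 < ε)
    (hε1 : ε ≤ 1) (j : ℕ) :
    fM L Tar ε j ≤ N * (ε⁻¹) ^ (N ^ 2) * R ^ (1 / (j : ℝ)) := by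
  have h1 : ∀ r ∈ Finset.Icc 1 N, (ε⁻¹) ^ (r ^ 2) * (alpha L Tar r) ^ (1 / (j : ℝ))
      ≤ (ε⁻¹) ^ (N ^ 2) * R ^ (1 / (j : ℝ)) := by
    intro r hr
    have hr := (Finset.mem_Icc.1 hr).2
    apply mul_le_mul
    · exact pow_le_pow_right₀ ((one_le_inv₀ hε).2 hε1) (Nat.pow_le_pow_left hr 2)
    · exact Real.rpow_le_rpow (alpha_nonneg hL Tar r) (alpha_le hL Tar hR r)
        (one_div_nat_nonneg j)
    · exact Real.rpow_nonneg (alpha_nonneg hL Tar r) _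
    · exact pow_nonneg (inv_nonneg.2 hε.le) _
  calc fM L Tar ε j ≤ ∑ r ∈ Finset.Icc 1 N, (ε⁻¹) ^ (N ^ 2) * R ^ (1 / (j : ℝ)) :=
        Finset.sum_le_sum h1
    _ = _ := by
        rw [Finset.sum_const, Nat.card_Icc, nsmul_eq_mul]
        simp [mul_assoc]

/-- change of exponent -/
theorem fM_exchange {L : (Fin N → ℝ) →ₗ[ℝ] E} (hL : Function.Injective L)
    (Tar : Set (Fin N → ℤ)) {R : ℝ} (hR : ∀ W, (covol L W)⁻¹ ≤ R) {ε : ℝ} (hε : 0 < ε)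
    (hε1 : ε ≤ 1) {i j : ℕ} (hi : 1 ≤ i) (hij : i ≤ j) {X : ℝ} (hX : 0 < X) :
    X ^ (1 / (i : ℝ)) * fM L Tar ε i
        ≤ N * (ε⁻¹) ^ (N ^ 2) * (X ^ (1 / (j : ℝ)) * fM L Tar ε j) ∨
      1 ≤ X ^ (1 / (j : ℝ)) * fM L Tar ε j := by
  rcases le_or_gt 1 (X ^ (1 / (j : ℝ)) * fM L Tar ε j) with h | h
  · exact Or.inr h
  left
  rcases Nat.eq_zero_or_pos N with hN | hN
  · subst hN
    simp [fM]
  have hε' : (1:ℝ) ≤ ε⁻¹ := (one_le_inv₀ hε).2 hε1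
  have hj : 1 ≤ j := hi.trans hij
  have hi' : (0:ℝ) < i := by exact_mod_cast hi
  have hj' : (0:ℝ) < j := by exact_mod_cast hj
  have hij' : 1 / (j:ℝ) ≤ 1 / (i:ℝ) := by
    apply one_div_le_one_div_of_le hi'
    exact_mod_cast hij
  have hXj : 0 < X ^ (1 / (j : ℝ)) := Real.rpow_pos_of_pos hX _
  have key : X ^ (1 / (i : ℝ)) * fM L Tar ε i ≤ X ^ (1 / (j : ℝ)) * fM L Tar ε j := by
    unfold fM
    rw [Finset.mul_sum, Finset.mul_sum]
    apply Finset.sum_le_sum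
    intro r hr
    have hr := Finset.mem_Icc.1 hr
    have ha := alpha_nonneg hL Tar r
    have hp : (1:ℝ) ≤ (ε⁻¹) ^ (r ^ 2) := one_le_pow₀ hε'
    have h1 : X ^ (1 / (j : ℝ)) * ((ε⁻¹) ^ (r ^ 2) * (alpha L Tar r) ^ (1 / (j : ℝ))) < 1 :=
      lt_of_le_of_lt (mul_le_mul_of_nonneg_left (term_le_fM hL Tar hε j hr.1 hr.2) hXj.le) h
    have h2 : (X * alpha L Tar r) ^ (1 / (j:ℝ)) < 1 := by
      rw [Real.mul_rpow hX.le ha]
      refine lt_of_le_of_lt ?_ h1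
      apply mul_le_mul_of_nonneg_left _ hXj.le
      exact le_mul_of_one_le_left (Real.rpow_nonneg ha _) hp
    have h0 : 0 ≤ X * alpha L Tar r := mul_nonneg hX.le ha
    have h3 : X * alpha L Tar r ≤ 1 := by
      by_contra hcon
      push Not at hcon
      have := Real.one_lt_rpow hcon (show (0:ℝ) < 1 / (j:ℝ) by positivity)
      linarith
    have h4 : (X * alpha L Tar r) ^ (1 / (i:ℝ)) ≤ (X * alpha L Tar r) ^ (1 / (j:ℝ)) := by
      rcases h0.eq_or_lt with h0' | h0'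
      · rw [← h0', Real.zero_rpow (by positivity), Real.zero_rpow (by positivity)]
      · exact Real.rpow_le_rpow_of_exponent_ge h0' h3 hij'
    rw [Real.mul_rpow hX.le ha, Real.mul_rpow hX.le ha] at h4
    calc X ^ (1 / (i : ℝ)) * ((ε⁻¹) ^ (r ^ 2) * alpha L Tar r ^ (1 / (i : ℝ)))
        = (ε⁻¹) ^ (r ^ 2) * (X ^ (1 / (i : ℝ)) * alpha L Tar r ^ (1 / (i : ℝ))) := by ring
      _ ≤ (ε⁻¹) ^ (r ^ 2) * (X ^ (1 / (j : ℝ)) * alpha L Tar r ^ (1 / (j : ℝ))) :=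
          mul_le_mul_of_nonneg_left h4 (zero_le_one.trans hp)
      _ = _ := by ring
  refine key.trans ?_
  apply le_mul_of_one_le_left (mul_nonneg hXj.le (fM_nonneg hL Tar hε j))
  have hN' : (1:ℝ) ≤ N := by exact_mod_cast hN
  exact one_le_mul_of_one_le_of_one_le hN' (one_le_pow₀ hε')

/-- passing from a bound for all subspaces to a bound for the supremum -/
theorem alpha_rpow_le {L : (Fin N → ℝ) →ₗ[ℝ] E} (hL : Function.Injective L)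
    (Tar : Set (Fin N → ℤ)) (r : ℕ) {j : ℕ} (hj : 1 ≤ j) {b : ℝ} (hb : 0 ≤ b)
    (h : ∀ W : Submodule ℚ (Fin N → ℚ), finrank ℚ W = r → (∃ v ∈ Tar, toQ v ∈ W) →
      ((covol L W)⁻¹) ^ (1 / (j:ℝ)) ≤ b) :
    (alpha L Tar r) ^ (1 / (j:ℝ)) ≤ b := by
  have hj' : (j:ℝ) ≠ 0 := by
    have : (0:ℝ) < j := by exact_mod_cast hj
    exact this.ne'
  have h1 : alpha L Tar r ≤ b ^ (j:ℝ) := by
    apply Real.sSup_le
    · rintro a ⟨W, hW, hv, rfl⟩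
      have h2 := h W hW hv
      have h3 : ((covol L W)⁻¹) = (((covol L W)⁻¹) ^ (1 / (j:ℝ))) ^ (j:ℝ) := by
        rw [← Real.rpow_mul (covol_inv_pos hL W).le, one_div_mul_cancel hj', Real.rpow_one]
      rw [h3]
      exact Real.rpow_le_rpow (Real.rpow_nonneg (covol_inv_pos hL W).le _) h2 (by positivity)
    · exact Real.rpow_nonneg hb _
  calc (alpha L Tar r) ^ (1 / (j:ℝ)) ≤ (b ^ (j:ℝ)) ^ (1 / (j:ℝ)) :=
        Real.rpow_le_rpow (alpha_nonneg hL Tar r) h1 (one_div_nat_nonneg j)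
    _ = b := by rw [← Real.rpow_mul hb, mul_one_div_cancel hj', Real.rpow_one]


/-- two different subspaces with targets: exchange -/
theorem exchange_pair {L : (Fin N → ℝ) →ₗ[ℝ] E} (hL : Function.Injective L) {K : ℝ} (hK : 1 ≤ K)
    {Tar : Set (Fin N → ℤ)} (h0 : ∀ v ∈ Tar, v ≠ 0) (hT : ∀ v ∈ Tar, ‖L (toR v)‖ ≤ K)
    {R : ℝ} (hR : ∀ W, (covol L W)⁻¹ ≤ R) {r : ℕ}
    {W W' : Submodule ℚ (Fin N → ℚ)} (hW : finrank ℚ W = r) (hW' : finrank ℚ W' = r)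
    (hne : W ≠ W') {v : Fin N → ℤ} (hv : v ∈ Tar) (hvW : toQ v ∈ W) :
    ∃ p q : ℕ, 1 ≤ p ∧ p ≤ N ∧ 1 ≤ q ∧ q ≤ N ∧ 2 * r ^ 2 + 2 ≤ p ^ 2 + q ^ 2 ∧
      (covol L W)⁻¹ * (covol L W')⁻¹ ≤ K * (alpha L Tar p * alpha L Tar q) := by
  have hK0 : 0 < K := zero_lt_one.trans_le hK
  have hsum := Submodule.finrank_sup_add_finrank_inf_eq W W'
  rw [hW, hW'] at hsum
  have hsN : finrank ℚ (W ⊔ W' : Submodule ℚ (Fin N → ℚ)) ≤ N := by
    have := Submodule.finrank_le (W ⊔ W')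
    simpa using this
  have hsr : r < finrank ℚ (W ⊔ W' : Submodule ℚ (Fin N → ℚ)) := by
    rw [← hW]
    apply Submodule.finrank_lt_finrank_of_lt
    apply lt_of_le_of_ne le_sup_left
    intro h
    have h1 : W' ≤ W := by
      rw [h]
      exact le_sup_right
    exact hne (Submodule.eq_of_le_of_finrank_eq h1 (by rw [hW, hW'])).symm
  have hC1 := covol_pos hL (W ⊓ W')
  have hC2 := covol_pos hL (W ⊔ W')
  have hCW := covol_pos hL W
  have hCW' := covol_pos hL W'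
  have hsub : (covol L W)⁻¹ * (covol L W')⁻¹ ≤
      (covol L (W ⊓ W'))⁻¹ * (covol L (W ⊔ W'))⁻¹ := by
    rw [← mul_inv, ← mul_inv]
    exact inv_anti₀ (mul_pos hC1 hC2) (covol_submod hL W W')
  have hvsup : toQ v ∈ W ⊔ W' := (le_sup_left : W ≤ W ⊔ W') hvW
  have hA2 := le_alpha (Tar := Tar) hR (r := finrank ℚ (W ⊔ W' : Submodule ℚ (Fin N → ℚ)))
    (W := W ⊔ W') rfl hv hvsup
  set s := finrank ℚ (W ⊔ W' : Submodule ℚ (Fin N → ℚ)) with hs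
  set i := finrank ℚ (W ⊓ W' : Submodule ℚ (Fin N → ℚ)) with hi
  have hr1 : 1 ≤ r := by
    rw [← hW]
    have : W ≠ ⊥ := by
      intro h
      rw [h] at hvW
      exact toQ_ne_zero (h0 v hv) ((Submodule.mem_bot ℚ).1 hvW)
    exact Submodule.one_le_finrank_iff.2 this
  by_cases hc : ∃ u ∈ Tar, toQ u ∈ W ⊓ W'
  · obtain ⟨u, hu, huW⟩ := hc
    have hi1 : 1 ≤ i := by
      have : W ⊓ W' ≠ ⊥ := by
        intro h
        rw [h] at huW
        exact toQ_ne_zero (h0 u hu) ((Submodule.mem_bot ℚ).1 huW)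
      exact Submodule.one_le_finrank_iff.2 this
    refine ⟨s, i, by omega, hsN, hi1, by omega, ?_, ?_⟩
    · obtain ⟨k, hk⟩ : ∃ k, s = r + k := ⟨s - r, by omega⟩
      have hk1 : 1 ≤ k := by omega
      obtain ⟨m, hm⟩ : ∃ m, r = i + m := ⟨r - i, by omega⟩
      have hmk : m = k := by omega
      subst hmk
      rw [hk, hm]
      nlinarith
    · have hA1 := le_alpha (Tar := Tar) hR (r := i) (W := W ⊓ W') hi.symm hu huW
      calc (covol L W)⁻¹ * (covol L W')⁻¹ ≤ (covol L (W ⊓ W'))⁻¹ * (covol L (W ⊔ W'))⁻¹ := hsub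
        _ ≤ alpha L Tar i * alpha L Tar s :=
            mul_le_mul hA1 hA2 (inv_nonneg.2 hC2.le) (alpha_nonneg hL Tar i)
        _ = 1 * (alpha L Tar s * alpha L Tar i) := by ring
        _ ≤ K * (alpha L Tar s * alpha L Tar i) :=
            mul_le_mul_of_nonneg_right hK (mul_nonneg (alpha_nonneg hL _ _) (alpha_nonneg hL _ _))
  · have hvn : toQ v ∉ W ⊓ W' := fun h => hc ⟨v, hv, h⟩
    have hadj := covol_adjoin hL (W ⊓ W') hvn
    set U := W ⊓ W' ⊔ span ℚ {toQ v} with hU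
    have hUd : finrank ℚ U = i + 1 := by
      have h1 := Submodule.finrank_sup_add_finrank_inf_eq (W ⊓ W') (span ℚ {toQ v})
      have h2 : (W ⊓ W') ⊓ span ℚ {toQ v} = ⊥ := by
        rw [← disjoint_iff]
        rw [Submodule.disjoint_span_singleton' (toQ_ne_zero (h0 v hv))]
        exact hvn
      rw [h2, finrank_bot, finrank_span_singleton (toQ_ne_zero (h0 v hv))] at h1
      simpa using h1
    have hUle : U ≤ W := by
      apply sup_le inf_le_left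
      rw [span_le, Set.singleton_subset_iff]
      exact hvW
    have hUr : i + 1 ≤ r := by
      rw [← hUd, ← hW]
      exact Submodule.finrank_mono hUle
    have hCU := covol_pos hL U
    have hA3 := le_alpha (Tar := Tar) hR (r := i + 1) (W := U) hUd hv
      ((le_sup_right : span ℚ {toQ v} ≤ U) (mem_span_singleton_self _))
    have hC1U : (covol L (W ⊓ W'))⁻¹ ≤ K * (covol L U)⁻¹ := by
      rw [inv_eq_one_div, ← div_eq_mul_inv, div_le_div_iff₀ hC1 hCU, one_mul]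
      calc covol L U ≤ covol L (W ⊓ W') * ‖L (toR v)‖ := hadj
        _ ≤ covol L (W ⊓ W') * K := mul_le_mul_of_nonneg_left (hT v hv) hC1.le
        _ = _ := mul_comm _ _
    refine ⟨s, i + 1, by omega, hsN, by omega, by omega, ?_, ?_⟩
    · obtain ⟨k, hk⟩ : ∃ k, s = r + k := ⟨s - r, by omega⟩
      have hk1 : 1 ≤ k := by omega
      obtain ⟨m, hm⟩ : ∃ m, r = i + m := ⟨r - i, by omega⟩
      have hmk : m = k := by omega
      subst hmk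
      rw [hk, hm]
      nlinarith
    · calc (covol L W)⁻¹ * (covol L W')⁻¹ ≤ (covol L (W ⊓ W'))⁻¹ * (covol L (W ⊔ W'))⁻¹ := hsub
        _ ≤ (K * (covol L U)⁻¹) * (covol L (W ⊔ W'))⁻¹ :=
            mul_le_mul_of_nonneg_right hC1U (inv_nonneg.2 hC2.le)
        _ ≤ (K * alpha L Tar (i + 1)) * alpha L Tar s :=
            mul_le_mul (mul_le_mul_of_nonneg_left hA3 hK0.le) hA2 (inv_nonneg.2 hC2.le)
              (mul_nonneg hK0.le (alpha_nonneg hL Tar _))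
        _ = K * (alpha L Tar s * alpha L Tar (i + 1)) := by ring

/-- the consequence of `exchange_pair` for the Margulis function -/
theorem exchange_bound {L : (Fin N → ℝ) →ₗ[ℝ] E} (hL : Function.Injective L)
    (Tar : Set (Fin N → ℤ)) {ε : ℝ} (hε : 0 < ε) (hε1 : ε ≤ 1) {j : ℕ} (hj : 1 ≤ j)
    {a C : ℝ} (ha : 0 ≤ a) (hC : 1 ≤ C) {r p q : ℕ} (hp1 : 1 ≤ p) (hpN : p ≤ N) (hq1 : 1 ≤ q)
    (hqN : q ≤ N) (hpq : 2 * r ^ 2 + 2 ≤ p ^ 2 + q ^ 2)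
    (h : a ^ 2 ≤ C * (alpha L Tar p * alpha L Tar q)) :
    (ε⁻¹) ^ (r ^ 2) * a ^ (1 / (j:ℝ)) ≤ C * ε * fM L Tar ε j := by
  have hε' : (1:ℝ) ≤ ε⁻¹ := (one_le_inv₀ hε).2 hε1
  have hC0 : 0 ≤ C := zero_le_one.trans hC
  have hf := fM_nonneg hL Tar hε j
  have hap := alpha_nonneg hL Tar p
  have haq := alpha_nonneg hL Tar q
  have hxp : 0 ≤ alpha L Tar p ^ (1 / (j:ℝ)) := Real.rpow_nonneg hap _
  have hxq : 0 ≤ alpha L Tar q ^ (1 / (j:ℝ)) := Real.rpow_nonneg haq _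
  have hi0 : (0:ℝ) ≤ ε⁻¹ := inv_nonneg.2 hε.le
  have h1 : (a ^ (1 / (j:ℝ))) ^ 2 ≤ C * (alpha L Tar p ^ (1 / (j:ℝ)) * alpha L Tar q ^ (1 / (j:ℝ))) := by
    calc (a ^ (1 / (j:ℝ))) ^ 2 = (a ^ 2) ^ (1 / (j:ℝ)) := by
          rw [← Real.rpow_natCast, ← Real.rpow_mul ha, ← Real.rpow_natCast, ← Real.rpow_mul ha]
          ring_nf
      _ ≤ (C * (alpha L Tar p * alpha L Tar q)) ^ (1 / (j:ℝ)) :=
          Real.rpow_le_rpow (sq_nonneg a) h (one_div_nat_nonneg j)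
      _ = C ^ (1 / (j:ℝ)) * (alpha L Tar p ^ (1 / (j:ℝ)) * alpha L Tar q ^ (1 / (j:ℝ))) := by
          rw [Real.mul_rpow hC0 (mul_nonneg hap haq), Real.mul_rpow hap haq]
      _ ≤ _ := mul_le_mul_of_nonneg_right (rpow_le_of_one_le hC hj) (mul_nonneg hxp hxq)
  have h2 : (ε⁻¹) ^ (p ^ 2 + q ^ 2) * (alpha L Tar p ^ (1 / (j:ℝ)) * alpha L Tar q ^ (1 / (j:ℝ)))
      ≤ fM L Tar ε j ^ 2 := by
    calc (ε⁻¹) ^ (p ^ 2 + q ^ 2) * (alpha L Tar p ^ (1 / (j:ℝ)) * alpha L Tar q ^ (1 / (j:ℝ)))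
        = ((ε⁻¹) ^ (p ^ 2) * alpha L Tar p ^ (1 / (j:ℝ))) *
          ((ε⁻¹) ^ (q ^ 2) * alpha L Tar q ^ (1 / (j:ℝ))) := by
          rw [pow_add]
          ring
      _ ≤ fM L Tar ε j * fM L Tar ε j :=
          mul_le_mul (term_le_fM hL Tar hε j hp1 hpN) (term_le_fM hL Tar hε j hq1 hqN)
            (mul_nonneg (pow_nonneg hi0 _) hxq) hf
      _ = _ := (sq _).symm
  have h3 : (ε⁻¹) ^ (2 * r ^ 2 + 2) ≤ (ε⁻¹) ^ (p ^ 2 + q ^ 2) := pow_le_pow_right₀ hε' hpq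
  have h4 : ((ε⁻¹) ^ (r ^ 2)) ^ 2 *
      (alpha L Tar p ^ (1 / (j:ℝ)) * alpha L Tar q ^ (1 / (j:ℝ))) ≤ ε ^ 2 * fM L Tar ε j ^ 2 := by
    have h5 : ((ε⁻¹) ^ (r ^ 2)) ^ 2 = ε ^ 2 * (ε⁻¹) ^ (2 * r ^ 2 + 2) := by
      rw [pow_add, ← pow_mul, mul_comm (r ^ 2) 2]
      have : ε ^ 2 * (ε⁻¹) ^ 2 = 1 := by
        rw [← mul_pow, mul_inv_cancel₀ hε.ne', one_pow]
      calc (ε⁻¹) ^ (2 * r ^ 2) = (ε⁻¹) ^ (2 * r ^ 2) * 1 := (mul_one _).symm
        _ = (ε⁻¹) ^ (2 * r ^ 2) * (ε ^ 2 * (ε⁻¹) ^ 2) := by rw [this]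
        _ = _ := by ring
    rw [h5, mul_assoc]
    apply mul_le_mul_of_nonneg_left _ (sq_nonneg ε)
    exact (mul_le_mul_of_nonneg_right h3 (mul_nonneg hxp hxq)).trans h2
  have h6 : ((ε⁻¹) ^ (r ^ 2) * a ^ (1 / (j:ℝ))) ^ 2 ≤ (C * ε * fM L Tar ε j) ^ 2 := by
    calc ((ε⁻¹) ^ (r ^ 2) * a ^ (1 / (j:ℝ))) ^ 2
        = ((ε⁻¹) ^ (r ^ 2)) ^ 2 * (a ^ (1 / (j:ℝ))) ^ 2 := mul_pow _ _ _
      _ ≤ ((ε⁻¹) ^ (r ^ 2)) ^ 2 *
          (C * (alpha L Tar p ^ (1 / (j:ℝ)) * alpha L Tar q ^ (1 / (j:ℝ)))) :=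
          mul_le_mul_of_nonneg_left h1 (sq_nonneg _)
      _ = C * (((ε⁻¹) ^ (r ^ 2)) ^ 2 *
          (alpha L Tar p ^ (1 / (j:ℝ)) * alpha L Tar q ^ (1 / (j:ℝ)))) := by ring
      _ ≤ C * (ε ^ 2 * fM L Tar ε j ^ 2) := mul_le_mul_of_nonneg_left h4 hC0
      _ ≤ C ^ 2 * (ε ^ 2 * fM L Tar ε j ^ 2) :=
          mul_le_mul_of_nonneg_right (by nlinarith) (by positivity)
      _ = _ := by ring
  exact (pow_le_pow_iff_left₀ (mul_nonneg (pow_nonneg hi0 _) (Real.rpow_nonneg ha _))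
    (mul_nonneg (mul_nonneg hC0 hε.le) hf) two_ne_zero).1 h6


/-- the step inequality for one dimension `r` -/
theorem emm_step_r {K : ℝ} (hK : 1 ≤ K) {j : ℕ} (hj : 1 ≤ j) {M : ℕ} (hM : 1 ≤ M)
    {ε : ℝ} (hε : 0 < ε) (hε1 : ε ≤ 1)
    (hεs : ε * (N * M * K ^ N * (2 * K * (K ^ N * (M : ℝ) ^ j))) ≤ 1)
    {L : (Fin N → ℝ) →ₗ[ℝ] E} (hL : Function.Injective L)
    {L' : Fin M → ((Fin N → ℝ) →ₗ[ℝ] E)} (hL' : ∀ t, Function.Injective (L' t))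
    (hcmp : ∀ t z, ‖L z‖ ≤ K * ‖L' t z‖)
    {Tar : Set (Fin N → ℤ)} {Tar' : Fin M → Set (Fin N → ℤ)} (hsub : ∀ t, Tar' t ⊆ Tar)
    (h0 : ∀ v ∈ Tar, v ≠ 0) (hT : ∀ v ∈ Tar, ‖L (toR v)‖ ≤ K)
    {B : ℝ} (hB : ∀ v ∈ Tar, ∑ t, ((max 1 ‖L' t (toR v)‖)⁻¹) ^ (1 / (j : ℝ)) ≤ B)
    {R : ℝ} (hR : ∀ W, (covol L W)⁻¹ ≤ R) {r : ℕ} (hr1 : 1 ≤ r) (hrN : r ≤ N) :
    ∑ t, (ε⁻¹) ^ (r ^ 2) * (alpha (L' t) (Tar' t) r) ^ (1 / (j:ℝ)) ≤
      (K ^ (N + 1) * B + 1) * ((ε⁻¹) ^ (r ^ 2) * (alpha L Tar r) ^ (1 / (j:ℝ))) +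
        (1 / (N:ℝ)) * fM L Tar ε j := by
  have hK0 : 0 < K := zero_lt_one.trans_le hK
  have hN : (0:ℝ) < N := by exact_mod_cast (hr1.trans hrN)
  have hMr : (1:ℝ) ≤ M := by exact_mod_cast hM
  have hM0 : (0:ℝ) < M := zero_lt_one.trans_le hMr
  have hj' : (0:ℝ) < j := by exact_mod_cast hj
  have hf := fM_nonneg hL Tar hε j
  have ha := alpha_nonneg hL Tar r
  have hi0 : (0:ℝ) < ε⁻¹ := inv_pos.2 hε
  rcases ha.eq_or_lt with ha0 | ha0
  · have hz : ∀ t, alpha (L' t) (Tar' t) r = 0 := by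
      intro t
      apply le_antisymm _ (alpha_nonneg (hL' t) _ r)
      have := alpha_mono hL (hL' t) hK (hcmp t) (hsub t) hR r
      rwa [← ha0, mul_zero] at this
    have hexp : (1 / (j:ℝ)) ≠ 0 := by positivity
    simp only [hz, ← ha0, Real.zero_rpow hexp, mul_zero, Finset.sum_const_zero, zero_add]
    exact mul_nonneg (by positivity) hf
  · set a := alpha L Tar r with hadef
    set X := a ^ (1 / (j:ℝ)) with hX
    have hX0 : 0 ≤ X := Real.rpow_nonneg ha _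
    set w : ℝ := K ^ N * (M : ℝ) ^ j with hw
    have hw1 : 1 ≤ w := one_le_mul_of_one_le_of_one_le (one_le_pow₀ hK) (one_le_pow₀ hMr)
    have hw0 : 0 < w := zero_lt_one.trans_le hw1
    have hKN : (1:ℝ) ≤ K ^ N := one_le_pow₀ hK
    have hKN1 : (1:ℝ) ≤ K ^ (N + 1) := one_le_pow₀ hK
    obtain ⟨W₁, hW₁, v₁, hv₁, hv₁W, hlt⟩ : ∃ W₁ : Submodule ℚ (Fin N → ℚ), finrank ℚ W₁ = r ∧
        ∃ v₁ ∈ Tar, toQ v₁ ∈ W₁ ∧ a / 2 < (covol L W₁)⁻¹ := by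
      have hne : {a : ℝ | ∃ W : Submodule ℚ (Fin N → ℚ), finrank ℚ W = r ∧
          (∃ v ∈ Tar, toQ v ∈ W) ∧ a = (covol L W)⁻¹}.Nonempty := by
        rw [Set.nonempty_iff_ne_empty]
        intro h
        rw [hadef, alpha, h, Real.sSup_empty] at ha0
        exact lt_irrefl _ ha0
      obtain ⟨b, ⟨W₁, hW₁, ⟨v₁, hv₁, hv₁W⟩, rfl⟩, hb⟩ :=
        exists_lt_of_lt_csSup hne (show a / 2 < _ from half_lt_self ha0)
      exact ⟨W₁, hW₁, v₁, hv₁, hv₁W, hb⟩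
    set x : Fin M → ℝ := fun t => ((max 1 ‖L' t (toR v₁)‖)⁻¹) ^ (1 / (j : ℝ)) with hx
    have hx0 : ∀ t, 0 ≤ x t := fun t => Real.rpow_nonneg (by positivity) _
    set D : ℝ := ε ^ (r ^ 2) * (K ^ N * (2 * K * w * ε * fM L Tar ε j)) with hD
    have hD0 : 0 ≤ D := by positivity
    have hbound : ∀ t, (alpha (L' t) (Tar' t) r) ^ (1 / (j:ℝ)) ≤
        K ^ (N + 1) * X * x t + X / M + D := by
      intro t
      have ht1 : 0 ≤ K ^ (N + 1) * X * x t := mul_nonneg (mul_nonneg (by positivity) hX0) (hx0 t)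
      have ht2 : 0 ≤ X / M := by positivity
      apply alpha_rpow_le (hL' t) (Tar' t) r hj (by positivity)
      rintro W hW ⟨v, hv, hvW⟩
      have hvT := hsub t hv
      have hcW := covol_pos hL W
      have hcW' := covol_pos (hL' t) W
      have hWa : (covol L W)⁻¹ ≤ a := le_alpha hR hW hvT hvW
      have hmono := inv_covol_mono hL (hL' t) hK (hcmp t) W
      by_cases hWW : W = W₁
      · subst hWW
        have hc1 : (covol (L' t) W)⁻¹ ≤ K ^ (N + 1) * a * (max 1 ‖L' t (toR v₁)‖)⁻¹ := by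
          rcases le_total ‖L' t (toR v₁)‖ 1 with hm | hm
          · rw [max_eq_left hm, inv_one, mul_one]
            calc (covol (L' t) W)⁻¹ ≤ K ^ N * (covol L W)⁻¹ := hmono
              _ ≤ K ^ N * a := mul_le_mul_of_nonneg_left hWa (by positivity)
              _ ≤ K ^ (N + 1) * a := mul_le_mul_of_nonneg_right
                  (pow_le_pow_right₀ hK (Nat.le_succ N)) ha
          · rw [max_eq_right hm]
            have hm0 : 0 < ‖L' t (toR v₁)‖ := zero_lt_one.trans_le hm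
            have hrat := covol_ratio hL (hL' t) hK (hcmp t) (h0 v₁ hv₁) hv₁W
            have hrat2 : covol L W * ‖L' t (toR v₁)‖ ≤ K ^ (N + 1) * covol (L' t) W := by
              calc covol L W * ‖L' t (toR v₁)‖ ≤ K ^ N * ‖L (toR v₁)‖ * covol (L' t) W := hrat
                _ ≤ K ^ N * K * covol (L' t) W := by
                    apply mul_le_mul_of_nonneg_right _ hcW'.le
                    exact mul_le_mul_of_nonneg_left (hT v₁ hv₁) (by positivity)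
                _ = _ := by ring
            calc (covol (L' t) W)⁻¹
                ≤ K ^ (N + 1) * (covol L W)⁻¹ * ‖L' t (toR v₁)‖⁻¹ := by
                  rw [mul_assoc, ← mul_inv, ← div_eq_mul_inv, inv_eq_one_div,
                    div_le_div_iff₀ hcW' (mul_pos hcW hm0), one_mul]
                  exact hrat2
              _ ≤ K ^ (N + 1) * a * ‖L' t (toR v₁)‖⁻¹ := by
                  apply mul_le_mul_of_nonneg_right _ (inv_nonneg.2 hm0.le)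
                  exact mul_le_mul_of_nonneg_left hWa (by positivity)
        have hc2 : ((covol (L' t) W)⁻¹) ^ (1 / (j:ℝ)) ≤ K ^ (N + 1) * X * x t := by
          calc ((covol (L' t) W)⁻¹) ^ (1 / (j:ℝ))
              ≤ (K ^ (N + 1) * a * (max 1 ‖L' t (toR v₁)‖)⁻¹) ^ (1 / (j:ℝ)) :=
                Real.rpow_le_rpow (inv_nonneg.2 hcW'.le) hc1 (one_div_nat_nonneg j)
            _ = (K ^ (N + 1)) ^ (1 / (j:ℝ)) * X * x t := by
                rw [Real.mul_rpow (by positivity) (by positivity),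
                  Real.mul_rpow (by positivity) ha]
            _ ≤ K ^ (N + 1) * X * x t := by
                apply mul_le_mul_of_nonneg_right _ (hx0 t)
                exact mul_le_mul_of_nonneg_right (rpow_le_of_one_le hKN1 hj) hX0
        linarith
      by_cases hsmall : (covol L W)⁻¹ ≤ a / w
      · have hc1 : (covol (L' t) W)⁻¹ ≤ a * ((M:ℝ) ^ j)⁻¹ := by
          calc (covol (L' t) W)⁻¹ ≤ K ^ N * (covol L W)⁻¹ := hmono
            _ ≤ K ^ N * (a / w) := mul_le_mul_of_nonneg_left hsmall (by positivity)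
            _ = a * ((M:ℝ) ^ j)⁻¹ := by
                rw [hw]
                field_simp
        have hc2 : ((covol (L' t) W)⁻¹) ^ (1 / (j:ℝ)) ≤ X / M := by
          calc ((covol (L' t) W)⁻¹) ^ (1 / (j:ℝ)) ≤ (a * ((M:ℝ) ^ j)⁻¹) ^ (1 / (j:ℝ)) :=
                Real.rpow_le_rpow (inv_nonneg.2 hcW'.le) hc1 (one_div_nat_nonneg j)
            _ = X * (((M:ℝ) ^ j)⁻¹) ^ (1 / (j:ℝ)) := Real.mul_rpow ha (by positivity)
            _ = X / M := by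
                rw [Real.inv_rpow (by positivity), ← Real.rpow_natCast, ← Real.rpow_mul hM0.le,
                  mul_one_div_cancel hj'.ne', Real.rpow_one, div_eq_mul_inv]
        linarith
      · push Not at hsmall
        obtain ⟨p, q, hp1, hpN, hq1, hqN, hpq, hpair⟩ :=
          exchange_pair hL hK h0 hT hR hW hW₁ hWW hvT hvW
        have hsq : a ^ 2 ≤ 2 * K * w * (alpha L Tar p * alpha L Tar q) := by
          have h1 : (a / w) * (a / 2) ≤ K * (alpha L Tar p * alpha L Tar q) :=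
            (mul_le_mul hsmall.le hlt.le (by positivity) (inv_nonneg.2 hcW.le)).trans hpair
          have h2 : a ^ 2 = 2 * w * ((a / w) * (a / 2)) := by
            field_simp
          rw [h2]
          calc 2 * w * ((a / w) * (a / 2)) ≤ 2 * w * (K * (alpha L Tar p * alpha L Tar q)) :=
                mul_le_mul_of_nonneg_left h1 (by positivity)
            _ = _ := by ring
        have hC : 1 ≤ 2 * K * w := by nlinarith
        have hex := exchange_bound hL Tar hε hε1 hj ha hC hp1 hpN hq1 hqN hpq hsq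
        have hXle : X ≤ ε ^ (r ^ 2) * (2 * K * w * ε * fM L Tar ε j) := by
          have h3 : ε ^ (r ^ 2) * (ε⁻¹) ^ (r ^ 2) = 1 := by
            rw [← mul_pow, mul_inv_cancel₀ hε.ne', one_pow]
          calc X = (ε ^ (r ^ 2) * (ε⁻¹) ^ (r ^ 2)) * X := by rw [h3, one_mul]
            _ = ε ^ (r ^ 2) * ((ε⁻¹) ^ (r ^ 2) * X) := by ring
            _ ≤ _ := mul_le_mul_of_nonneg_left hex (by positivity)
        have hc2 : ((covol (L' t) W)⁻¹) ^ (1 / (j:ℝ)) ≤ D := by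
          calc ((covol (L' t) W)⁻¹) ^ (1 / (j:ℝ)) ≤ (K ^ N * a) ^ (1 / (j:ℝ)) := by
                apply Real.rpow_le_rpow (inv_nonneg.2 hcW'.le) _ (one_div_nat_nonneg j)
                exact hmono.trans (mul_le_mul_of_nonneg_left hWa (by positivity))
            _ = (K ^ N) ^ (1 / (j:ℝ)) * X := Real.mul_rpow (by positivity) ha
            _ ≤ K ^ N * X := mul_le_mul_of_nonneg_right (rpow_le_of_one_le hKN hj) hX0
            _ ≤ K ^ N * (ε ^ (r ^ 2) * (2 * K * w * ε * fM L Tar ε j)) :=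
                mul_le_mul_of_nonneg_left hXle (by positivity)
            _ = D := by rw [hD]; ring
        linarith
    have hpow : (0:ℝ) ≤ (ε⁻¹) ^ (r ^ 2) := pow_nonneg hi0.le _
    have hsum : ∑ t : Fin M, (K ^ (N + 1) * X * x t + X / M + D) =
        K ^ (N + 1) * X * ∑ t, x t + X + M * D := by
      rw [Finset.sum_add_distrib, Finset.sum_add_distrib, ← Finset.mul_sum, Finset.sum_const,
        Finset.sum_const, Finset.card_univ, Fintype.card_fin, nsmul_eq_mul, nsmul_eq_mul]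
      congr 2
      field_simp
    have hDM : (ε⁻¹) ^ (r ^ 2) * (M * D) ≤ (1 / (N:ℝ)) * fM L Tar ε j := by
      have h3 : (ε⁻¹) ^ (r ^ 2) * ε ^ (r ^ 2) = 1 := by
        rw [← mul_pow, inv_mul_cancel₀ hε.ne', one_pow]
      have h4 : (ε⁻¹) ^ (r ^ 2) * (M * D) =
          (1 / (N:ℝ)) * ((ε * (N * M * K ^ N * (2 * K * w))) * fM L Tar ε j) := by
        rw [hD]
        calc (ε⁻¹) ^ (r ^ 2) * (M * (ε ^ (r ^ 2) * (K ^ N * (2 * K * w * ε * fM L Tar ε j))))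
            = ((ε⁻¹) ^ (r ^ 2) * ε ^ (r ^ 2)) * (M * (K ^ N * (2 * K * w * ε * fM L Tar ε j))) := by
              ring
          _ = _ := by
              rw [h3]
              field_simp
      rw [h4]
      apply mul_le_mul_of_nonneg_left _ (by positivity)
      exact mul_le_of_le_one_left hf hεs
    calc ∑ t, (ε⁻¹) ^ (r ^ 2) * (alpha (L' t) (Tar' t) r) ^ (1 / (j:ℝ))
        ≤ ∑ t, (ε⁻¹) ^ (r ^ 2) * (K ^ (N + 1) * X * x t + X / M + D) :=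
          Finset.sum_le_sum fun t _ => mul_le_mul_of_nonneg_left (hbound t) hpow
      _ = (ε⁻¹) ^ (r ^ 2) * (K ^ (N + 1) * X * ∑ t, x t + X + M * D) := by
          rw [← Finset.mul_sum, hsum]
      _ = (ε⁻¹) ^ (r ^ 2) * (K ^ (N + 1) * X * ∑ t, x t + X) + (ε⁻¹) ^ (r ^ 2) * (M * D) := by ring
      _ ≤ (ε⁻¹) ^ (r ^ 2) * (K ^ (N + 1) * X * B + X) + (1 / (N:ℝ)) * fM L Tar ε j := by
          apply add_le_add _ hDM
          apply mul_le_mul_of_nonneg_left _ hpow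
          apply add_le_add_left
          exact mul_le_mul_of_nonneg_left (hB v₁ hv₁) (by positivity)
      _ = _ := by ring

/-- the step inequality of Eskin-Margulis-Mozes -/
theorem emm_step {K : ℝ} (hK : 1 ≤ K) {j : ℕ} (hj : 1 ≤ j) {M : ℕ} (hM : 1 ≤ M)
    {ε : ℝ} (hε : 0 < ε) (hε1 : ε ≤ 1)
    (hεs : ε * (N * M * K ^ N * (2 * K * (K ^ N * (M : ℝ) ^ j))) ≤ 1)
    {L : (Fin N → ℝ) →ₗ[ℝ] E} (hL : Function.Injective L)
    {L' : Fin M → ((Fin N → ℝ) →ₗ[ℝ] E)} (hL' : ∀ t, Function.Injective (L' t))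
    (hcmp : ∀ t z, ‖L z‖ ≤ K * ‖L' t z‖)
    {Tar : Set (Fin N → ℤ)} {Tar' : Fin M → Set (Fin N → ℤ)} (hsub : ∀ t, Tar' t ⊆ Tar)
    (h0 : ∀ v ∈ Tar, v ≠ 0) (hT : ∀ v ∈ Tar, ‖L (toR v)‖ ≤ K)
    {B : ℝ} (hB : ∀ v ∈ Tar, ∑ t, ((max 1 ‖L' t (toR v)‖)⁻¹) ^ (1 / (j : ℝ)) ≤ B)
    {R : ℝ} (hR : ∀ W, (covol L W)⁻¹ ≤ R) :
    ∑ t, fM (L' t) (Tar' t) ε j ≤ (K ^ (N + 1) * B + 2) * fM L Tar ε j := by
  rcases Nat.eq_zero_or_pos N with hN | hN
  · subst hN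
    simp [fM]
  have hNr : (0:ℝ) < N := by exact_mod_cast hN
  calc ∑ t, fM (L' t) (Tar' t) ε j
      = ∑ r ∈ Finset.Icc 1 N, ∑ t, (ε⁻¹) ^ (r ^ 2) * (alpha (L' t) (Tar' t) r) ^ (1 / (j:ℝ)) := by
        unfold fM
        rw [Finset.sum_comm]
    _ ≤ ∑ r ∈ Finset.Icc 1 N,
        ((K ^ (N + 1) * B + 1) * ((ε⁻¹) ^ (r ^ 2) * (alpha L Tar r) ^ (1 / (j:ℝ))) +
        (1 / (N:ℝ)) * fM L Tar ε j) := by
        apply Finset.sum_le_sum
        intro r hr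
        have hr := Finset.mem_Icc.1 hr
        exact emm_step_r hK hj hM hε hε1 hεs hL hL' hcmp hsub h0 hT hB hR hr.1 hr.2
    _ = (K ^ (N + 1) * B + 1) * fM L Tar ε j + fM L Tar ε j := by
        rw [Finset.sum_add_distrib, ← Finset.mul_sum, Finset.sum_const, Nat.card_Icc,
          nsmul_eq_mul]
        have : ((N + 1 - 1 : ℕ) : ℝ) * (1 / (N:ℝ) * fM L Tar ε j) = fM L Tar ε j := by
          rw [Nat.add_sub_cancel]
          field_simp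
        rw [this]
        rfl
    _ = _ := by ring

end

end Pool.Agent.Helper53.MF
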